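import Pool.Agent.H62.CYC.DefsP
import Pool.Graph.R_seed8.W505.TV.Lap
import Pool.Graph.R_seed8.W342.VC.IThree

/-!
# Project CYC, second part: the pointwise limit at the critical point
-/

set_option autoImplicit false

namespace Pool.Agent.H45.CYC

open Filter Finset MeasureTheory
open Pool.Agent.W709.VC (ell)
open Pool.Agent.W708.VC
open Pool.Agent.W707.TV (Rh RH Rh_pos)
open Pool.Agent.W719.BX (hp Crit2)
open Pool.Agent.W505.TV (ph tt_c lim_logR RH_ratio RH_ne sin_fac one_add_ER ER_lim)
open Pool.Agent.H62.CYC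
open scoped Real Topology

theorem b_lt {p : ℕ} {α b η : ℝ} (hA : 4 ≤ p) (hc : Crit2 ((p : ℝ) / 2) α b η) : b < π / 2 := by
  have h1 := hc.hbm
  have hA' : (4:ℝ) ≤ p := by exact_mod_cast hA
  nlinarith [hc.hb]

theorem sin_pos' {p : ℕ} {α b η : ℝ} (hA : 4 ≤ p) (hc : Crit2 ((p : ℝ) / 2) α b η) :
    0 < Real.sin (π - b) * Real.sinh η := by
  have h1 := b_lt hA hc
  rw [Real.sin_pi_sub]
  exact mul_pos (Real.sin_pos_of_pos_of_lt_pi hc.hb (by linarith [Real.pi_pos]))
    (Real.sinh_pos_iff.2 hc.hη)

/-- the integral over a period -/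
theorem int_period {η : ℝ} (hη : 0 < η) (a : ℝ) :
    ∫ x in a..(a + 2 * π), Real.sinh η / (Real.cosh η + Real.cos x) = 2 * π := by
  have hc := Pool.Agent.W342.VC.tt_cont hη
  have h1 : ∫ x in a..(a + 2 * π), (1 / 2 - Real.sinh η / (Real.cosh η + Real.cos x) / 2) =
      Pool.Agent.W342.VC.GG η (a + 2 * π) - Pool.Agent.W342.VC.GG η a :=
    intervalIntegral.integral_eq_sub_of_hasDerivAt
      (fun x _ => Pool.Agent.W342.VC.GG_deriv hη x)
      ((continuous_const.sub (hc.div_const 2)).intervalIntegrable _ _)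
  have h2 : Pool.Agent.W342.VC.GG η (a + 2 * π) = Pool.Agent.W342.VC.GG η a := by
    unfold Pool.Agent.W342.VC.GG
    rw [Real.sin_add_two_pi, Real.cos_add_two_pi]
  have h3 : ∫ x in a..(a + 2 * π), Real.sinh η / (Real.cosh η + Real.cos x) / 2 =
      (∫ x in a..(a + 2 * π), Real.sinh η / (Real.cosh η + Real.cos x)) / 2 :=
    intervalIntegral.integral_div _ _
  rw [h2, sub_self, intervalIntegral.integral_sub (by simp)
    ((hc.div_const 2).intervalIntegrable _ _), h3,
    intervalIntegral.integral_const, smul_eq_mul] at h1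
  linarith

theorem int_K {p : ℕ} {α b η : ℝ} (hc : Crit2 ((p : ℝ) / 2) α b η) :
    ∫ x in (π - b - (α + π))..(π - b + (α + π)), Real.sinh η / (Real.cosh η + Real.cos x) =
      4 * π - p * b := by
  have hη := hc.hη
  have hcn := Pool.Agent.W342.VC.tt_cont hη
  rw [← intervalIntegral.integral_add_adjacent_intervals
    (hcn.intervalIntegrable (π - b - (α + π)) (π - b - (α + π) + 2 * π))
    (hcn.intervalIntegrable _ _), int_period hη]
  have h1 := intervalIntegral.integral_comp_sub_left (a := b - α) (b := b + α)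
    (fun x => Real.sinh η / (Real.cosh η + Real.cos x)) (2 * π)
  have h2 : ∫ x in (b - α)..(b + α), Real.sinh η / (Real.cosh η + Real.cos (2 * π - x)) =
      ∫ x in (b - α)..(b + α), Real.sinh η / (Real.cosh η + Real.cos x) := by
    apply intervalIntegral.integral_congr
    intro x _
    change Real.sinh η / (Real.cosh η + Real.cos (2 * π - x)) = _
    rw [Real.cos_two_pi_sub]
  have h3 : π - b - (α + π) + 2 * π = 2 * π - (b + α) := by ring
  have h4 : π - b + (α + π) = 2 * π - (b - α) := by ring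
  rw [h3, h4, ← h1, h2]
  linarith [hc.c3]

theorem J1 {p : ℕ} {α b η : ℝ} (hA : 4 ≤ p) (hc : Crit2 ((p : ℝ) / 2) α b η) :
    Complex.sin (-((π - b : ℝ) : ℂ) + η * Complex.I) * ∫ x in (0:ℝ)..(α + π), wi (π - b) η x =
      (((p : ℝ) / 2 * η : ℝ) : ℂ) + ((2 * π - (p : ℝ) / 2 * b : ℝ) : ℂ) * Complex.I := by
  have hδ := sin_pos' hA hc
  have hη := hc.hη
  have hP := P_cont hη
  rw [← intervalIntegral.integral_const_mul]
  have h1 : ∀ x, Complex.sin (-((π - b : ℝ) : ℂ) + η * Complex.I) * wi (π - b) η x =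
      (1 / 2 : ℂ) * (P η ((π - b) + x) + P η ((π - b) - x)) :=
    fun x => P_eq hδ hη x
  simp only [h1]
  have hP1 : Continuous (fun x => P η ((π - b) + x)) := hP.comp (by fun_prop)
  have hP2 : Continuous (fun x => P η ((π - b) - x)) := hP.comp (by fun_prop)
  rw [intervalIntegral.integral_const_mul, intervalIntegral.integral_add
    (hP1.intervalIntegrable _ _) (hP2.intervalIntegrable _ _),
    intervalIntegral.integral_comp_add_left (fun x => P η x),
    intervalIntegral.integral_comp_sub_left (fun x => P η x),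
    add_comm, add_zero, sub_zero, intervalIntegral.integral_add_adjacent_intervals
    (hP.intervalIntegrable _ _) (hP.intervalIntegrable _ _), P_int hη, int_K hc]
  have e0 : ell η (π - b + (α + π)) = ell η (b - α) := by
    unfold ell
    rw [show π - b + (α + π) = 2 * π - (b - α) by ring, Real.cos_two_pi_sub]
  have e1 : ell η (π - b - (α + π)) = ell η (b + α) := by
    unfold ell
    rw [show π - b - (α + π) = -(b + α) by ring, Real.cos_neg]
  have e2 : ell η (π - b + (α + π)) - ell η (π - b - (α + π)) = p * η := by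
    rw [e0, e1]
    linarith [hc.c1]
  rw [e2]
  push_cast
  ring

theorem RH_neg (M d : ℕ) (z : ℂ) : RH M d (-z) = RH M d z := by
  unfold RH
  simp only [Complex.cos_neg]

theorem conj_two : (starRingEnd ℂ) (2 : ℂ) = 2 := by
  have := Complex.conj_ofReal 2
  simpa using this

theorem RH_conj (M d : ℕ) (z : ℂ) :
    RH M d ((starRingEnd ℂ) z) = (starRingEnd ℂ) (RH M d z) := by
  unfold RH
  rw [map_prod]
  refine Finset.prod_congr rfl fun j _ => ?_
  rw [Complex.cos_conj, map_sub, map_mul, map_mul, Complex.conj_ofReal, map_neg, conj_two]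

/-- the values of the product -/
theorem RH_shift (M d : ℕ) (b η t : ℝ) :
    RH M d ((-b + η * Complex.I) + (t : ℂ) + π) =
      (starRingEnd ℂ) (RH M d ((-((π - b : ℝ) : ℂ) + η * Complex.I) + ((-t : ℝ) : ℂ))) := by
  rw [← RH_conj, ← RH_neg]
  congr 1
  simp only [map_add, map_neg, map_mul, Complex.conj_ofReal, Complex.conj_I]
  push_cast
  ring

theorem wi_conj (α b η : ℝ) :
    (starRingEnd ℂ) (wi (π - b) η (α + π)) = -wi b η α := by
  unfold wi
  rw [map_inv₀, map_add, ← Complex.cos_conj, Complex.conj_ofReal, Real.cos_add_pi, neg_inv]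
  congr 1
  have h1 : (starRingEnd ℂ) (-((π - b : ℝ) : ℂ) + η * Complex.I) =
      -((-b + η * Complex.I) + π) := by
    simp only [map_add, map_neg, map_mul, Complex.conj_ofReal, Complex.conj_I]
    push_cast
    ring
  rw [h1, Complex.cos_neg, Complex.cos_add_pi]
  push_cast
  ring

theorem HT_eq (p M k : ℕ) (ψ : ℂ) : HT p M k ψ =
    (-2 * Complex.I) * (Complex.exp (Complex.I * p * Rh M * ψ ^ 2 / (8 * π) +
      Complex.I * (Rh M * ψ)) * (RH M k (ψ + π) * (2 * Complex.cos ((ψ + π) / 2))) *
      Complex.sin (ψ / 2) / (1 + -Complex.exp (2 * Complex.I * (Rh M * ψ)))) := by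
  have hs := sin_fac (Rh M * ψ)
  have hne := Complex.exp_ne_zero (Complex.I * (Rh M * ψ))
  have hI := Complex.I_ne_zero
  rw [HT, Complex.exp_add]
  have hs2 : Complex.sin (Rh M * ψ) = Complex.exp (-(Complex.I * (Rh M * ψ))) *
      (1 + -Complex.exp (2 * Complex.I * (Rh M * ψ))) / (-2 * Complex.I) := by
    rw [eq_div_iff (by simp [hI])]
    linear_combination (-1 : ℂ) * hs
  rw [hs2, Complex.exp_neg]
  by_cases h : 1 + -Complex.exp (2 * Complex.I * (Rh M * ψ)) = 0
  · simp [h]
  · field_simp

theorem one_add_ne {η : ℝ} (hη : 0 < η) (M : ℕ) (x : ℝ) :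
    1 + -Complex.exp (2 * Complex.I * (Rh M * ((x : ℂ) + η * Complex.I))) ≠ 0 := by
  have h := one_add_ER hη M (x - π)
  rwa [show (((x - π : ℝ) : ℂ) + η * Complex.I + π) = (x : ℂ) + η * Complex.I by
    push_cast; ring] at h

theorem E_limit {η : ℝ} (hη : 0 < η) (x : ℕ → ℝ) :
    Tendsto (fun M : ℕ =>
      1 + -Complex.exp (2 * Complex.I * (Rh M * ((x M : ℂ) + η * Complex.I)))) atTop (𝓝 1) := by
  have h := ER_lim hη (fun M => x M - π)
  refine h.congr fun M => ?_
  rw [show (((x M - π : ℝ) : ℂ) + η * Complex.I + π) = (x M : ℂ) + η * Complex.I by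
    push_cast; ring]

theorem tt_neg (s : ℝ) (M : ℕ) : tt (-s) M = -tt s M := by
  unfold tt
  ring

theorem plap : S_PLAP := by
  intro p α b η k hA hc hk
  have hπ : (π : ℂ) ≠ 0 := by exact_mod_cast Real.pi_ne_zero
  have hδ := sin_pos' hA hc
  have hη := hc.hη
  have hα := hc.hα
  have hJ := J1 hA hc
  have hb2 := b_lt hA hc
  have hπ0 := Real.pi_pos
  have hsb : 0 < Real.sin b :=
    Real.sin_pos_of_pos_of_lt_pi hc.hb (by linarith)
  have hδ0 : 0 < Real.sin b * Real.sinh η := mul_pos hsb (Real.sinh_pos_iff.2 hη)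
  refine ⟨-(Complex.I * p) / (8 * π) + (Real.sin α : ℂ) * wi b η α / (4 * π), ?_, ?_⟩
  · have h1 : (-(Complex.I * p) / (8 * π) : ℂ).re = 0 := by
      have : (-(Complex.I * p) / (8 * π) : ℂ) = ((-(p : ℝ) / (8 * π) : ℝ) : ℂ) * Complex.I := by
        push_cast; ring
      rw [this, Complex.re_ofReal_mul, Complex.I_re, mul_zero]
    have h2 : ((Real.sin α : ℂ) * wi b η α / (4 * π) : ℂ) =
        ((Real.sin α / (4 * π) : ℝ) : ℂ) * wi b η α := by
      push_cast; ring
    rw [Complex.add_re, h1, h2, zero_add, Complex.re_ofReal_mul]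
    have hsα : 0 < Real.sin α :=
      Real.sin_pos_of_pos_of_lt_pi hα (by linarith [hc.hα2])
    have hcb : 0 < Real.cos b := Real.cos_pos_of_mem_Ioo ⟨by linarith [hc.hb], hb2⟩
    have hcα : 0 < Real.cos α := Real.cos_pos_of_mem_Ioo ⟨by linarith, hc.hα2⟩
    have hch : 1 ≤ Real.cosh η := Real.one_le_cosh η
    have hre : 0 < (wi b η α).re := by
      rw [wi, Complex.inv_re]
      refine div_pos ?_ (Complex.normSq_pos.2 (den_ne hδ0 α))
      rw [cos_psi]
      simp only [Complex.add_re, Complex.ofReal_re, Complex.mul_re, Complex.I_re, mul_zero,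
        Complex.ofReal_im, Complex.I_im, mul_one, sub_zero, add_zero]
      nlinarith
    positivity
  · intro s
    have hRt2 : Tendsto (fun M : ℕ => (Rh M : ℂ) * ((tt s M : ℝ) : ℂ) ^ 2) atTop
        (𝓝 ((s : ℂ) ^ 2)) := by
      have h1 : Tendsto (fun M : ℕ => (1 / 2 : ℂ) * ((tt s M : ℝ) : ℂ) ^ 2 + (s : ℂ) ^ 2) atTop
          (𝓝 ((1 / 2 : ℂ) * 0 ^ 2 + (s : ℂ) ^ 2)) :=
        (((tt_c s).pow 2).const_mul _).add_const _
      rw [zero_pow two_ne_zero, mul_zero, zero_add] at h1
      refine h1.congr' ?_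
      filter_upwards [eventually_gt_atTop 0] with M hM
      have hN' : (0:ℝ) < M := by exact_mod_cast hM
      have hsq : Real.sqrt M ^ 2 = M := Real.sq_sqrt hN'.le
      have hNt2 : (M : ℂ) * ((tt s M : ℝ) : ℂ) ^ 2 = (s:ℂ) ^ 2 := by
        rw [← Complex.ofReal_natCast, ← Complex.ofReal_pow, ← Complex.ofReal_mul,
          ← Complex.ofReal_pow]
        congr 1
        rw [tt, div_pow, hsq]; field_simp
      rw [← hNt2]
      unfold Rh
      push_cast
      ring
    have hL0 := lim_logR hδ (α + π) (-s) k hk (by linarith)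
    have hL := ((Complex.continuous_conj.tendsto _).comp hL0)
    have hLv : (starRingEnd ℂ) (-(((-s : ℝ) : ℂ) ^ 2 / (4 * π)) *
        ((Real.sin (α + π) : ℂ) * wi (π - b) η (α + π))) =
        -((s:ℂ) ^ 2 / (4 * π)) * ((Real.sin α : ℂ) * wi b η α) := by
      rw [map_mul, map_mul, wi_conj, Complex.conj_ofReal, Real.sin_add_pi, map_neg, map_div₀,
        map_pow, Complex.conj_ofReal, map_mul, Complex.conj_ofReal]
      have h4 : (starRingEnd ℂ) (4 : ℂ) = 4 := by
        have := Complex.conj_ofReal 4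
        simpa using this
      rw [h4]
      push_cast
      ring
    rw [hLv] at hL
    have hX := hL.add ((hRt2.const_mul (Complex.I * p)).div_const (8 * π))
    have hX' := (Complex.continuous_exp.tendsto _).comp hX
    have hsn : Complex.sin (-b + η * Complex.I) ≠ 0 := by
      intro h
      have h2 := congrArg Complex.re h
      rw [sin_psi] at h2
      simp only [Complex.add_re, Complex.ofReal_re, Complex.mul_re, Complex.I_re, mul_zero,
        Complex.ofReal_im, Complex.I_im, mul_one, sub_zero, add_zero, Complex.zero_re] at h2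
      have h4 := Real.cosh_pos η
      nlinarith [mul_pos hsb h4]
    have hs2n : Complex.sin ((-b + η * Complex.I) / 2) ≠ 0 := by
      intro h
      apply hsn
      rw [show (-b + η * Complex.I : ℂ) = 2 * ((-b + η * Complex.I) / 2) by ring,
        Complex.sin_two_mul, h]
      ring
    have hcs : ∀ z : ℂ, Complex.cos ((z + π) / 2) = -Complex.sin (z / 2) := by
      intro z
      rw [add_div, Complex.cos_add_pi_div_two]
    have hcn : Complex.cos (((-b + η * Complex.I) + π) / 2) ≠ 0 := by
      rw [hcs]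
      exact neg_ne_zero.2 hs2n
    have h1ψ : Tendsto (fun M : ℕ => (-b + η * Complex.I) + ((tt s M : ℝ) : ℂ)) atTop
        (𝓝 ((-b + η * Complex.I) + ((0:ℝ) : ℂ))) :=
      ((Complex.continuous_ofReal.tendsto _).comp (tt_zero s)).const_add _
    have hS : Tendsto (fun M : ℕ => Complex.sin (((-b + η * Complex.I) + (tt s M : ℝ)) / 2) /
        Complex.sin ((-b + η * Complex.I) / 2)) atTop (𝓝 1) := by
      have h2 := ((Complex.continuous_sin.tendsto _).comp (h1ψ.div_const 2)).div_const
        (Complex.sin ((-b + η * Complex.I) / 2))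
      rw [Complex.ofReal_zero, add_zero, div_self hs2n] at h2
      exact h2
    have hCo : Tendsto (fun M : ℕ =>
        Complex.cos (((-b + η * Complex.I) + (tt s M : ℝ) + π) / 2) /
        Complex.cos (((-b + η * Complex.I) + π) / 2)) atTop (𝓝 1) := by
      refine hS.congr fun M => ?_
      rw [hcs, hcs, neg_div_neg_eq]
    have hE0 := E_limit hη (fun _ => -b)
    have hE1 := E_limit hη (fun M => -b + tt s M)
    have hE := (hE0.div hE1 one_ne_zero)
    rw [div_one] at hE
    have hall := ((hX'.mul hS).mul hCo).mul hE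
    rw [mul_one, mul_one, mul_one] at hall
    have hsmall : ∀ᶠ M : ℕ in atTop,
        ‖Dl (π - b) η (-s) M‖ * (Real.sin (π - b) * Real.sinh η)⁻¹ ≤ 1 / 2 := by
      have := (lim_D (π - b) η (-s)).norm.mul_const (Real.sin (π - b) * Real.sinh η)⁻¹
      rw [norm_zero, zero_mul] at this
      exact this.eventually (ge_mem_nhds (by norm_num : (0:ℝ) < 1 / 2))
    have hlim : -((s:ℂ) ^ 2 / (4 * π)) * ((Real.sin α : ℂ) * wi b η α) +
        Complex.I * p * s ^ 2 / (8 * π) =
        -(-(Complex.I * p) / (8 * π) + (Real.sin α : ℂ) * wi b η α / (4 * π)) * s ^ 2 := by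
      field_simp
      ring
    rw [hlim] at hall
    refine hall.congr' ?_
    filter_upwards [hsmall, eventually_gt_atTop 0] with M hs hM
    have hψ : (-b + s / (Real.sqrt M : ℝ) + η * Complex.I : ℂ) =
        (-b + η * Complex.I) + (tt s M : ℝ) := by
      rw [tt]; push_cast; ring
    have hψe : (-b + η * Complex.I) + ((tt s M : ℝ) : ℂ) =
        (((-b + tt s M : ℝ)) : ℂ) + η * Complex.I := by
      push_cast; ring
    rw [hψ, HT_eq, HT_eq]
    have hRR := RH_ratio hδ (-s) M (k M) hs
    have hRn := RH_ne hδ M (k M)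
    have hR0 : RH M (k M) ((-b + η * Complex.I) + π) =
        (starRingEnd ℂ) (RH M (k M) (-((π - b : ℝ) : ℂ) + η * Complex.I)) := by
      have := RH_shift M (k M) b η 0
      rw [neg_zero, Complex.ofReal_zero, add_zero, add_zero] at this
      exact this
    have hR1 : RH M (k M) ((-b + η * Complex.I) + (tt s M : ℝ) + π) =
        (starRingEnd ℂ) (RH M (k M) ((-((π - b : ℝ) : ℂ) + η * Complex.I) +
          (tt (-s) M : ℝ))) := by
      rw [RH_shift, tt_neg]
    have hRn0 : RH M (k M) ((-b + η * Complex.I) + π) ≠ 0 := by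
      rw [hR0]
      exact (map_ne_zero _).2 hRn
    have hRR' : RH M (k M) ((-b + η * Complex.I) + (tt s M : ℝ) + π) =
        Complex.exp ((starRingEnd ℂ) (∑ j ∈ range (k M),
          Complex.log (1 + Dl (π - b) η (-s) M * wi (π - b) η (ph M j)))) *
          RH M (k M) ((-b + η * Complex.I) + π) := by
      rw [hR1, hR0, Complex.exp_conj, ← hRR, ← map_mul, div_mul_cancel₀ _ hRn]
    rw [hRR']
    have hq0 : 1 + -Complex.exp (2 * Complex.I * (Rh M * (-b + η * Complex.I))) ≠ 0 := by
      have := one_add_ne hη M (-b)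
      rwa [Complex.ofReal_neg] at this
    have hq1 : 1 + -Complex.exp (2 * Complex.I *
        (Rh M * ((-b + η * Complex.I) + (tt s M : ℝ)))) ≠ 0 := by
      have := one_add_ne hη M (-b + tt s M)
      rwa [← hψe] at this
    have hexp : Complex.exp (Complex.I * p * Rh M *
          ((-b + η * Complex.I) + (tt s M : ℝ)) ^ 2 / (8 * π) +
        Complex.I * (Rh M * ((-b + η * Complex.I) + (tt s M : ℝ)))) =
        Complex.exp ((starRingEnd ℂ) (((Rh M * tt (-s) M : ℝ) : ℂ) / (2 * π) *
          (Complex.sin (-((π - b : ℝ) : ℂ) + η * Complex.I) *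
            ∫ x in (0:ℝ)..(α + π), wi (π - b) η x)) +
          Complex.I * p * (Rh M * ((tt s M : ℝ) : ℂ) ^ 2) / (8 * π)) *
        Complex.exp (Complex.I * p * Rh M * (-b + η * Complex.I) ^ 2 / (8 * π) +
          Complex.I * (Rh M * (-b + η * Complex.I))) := by
      rw [← Complex.exp_add]
      congr 1
      rw [hJ, tt_neg]
      have h2 : (starRingEnd ℂ) (2 : ℂ) = 2 := by
        have := Complex.conj_ofReal 2
        simpa using this
      simp only [map_add, map_mul, map_div₀, Complex.conj_ofReal, Complex.conj_I, h2]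
      push_cast
      field_simp
      ring_nf
      simp only [Complex.I_sq]
      ring
    rw [hexp]
    simp only [Function.comp_apply]
    have hE0' : (1 + -Complex.exp (2 * Complex.I * (Rh M * (((-b : ℝ) : ℂ) + η * Complex.I)))) =
        1 + -Complex.exp (2 * Complex.I * (Rh M * (-b + η * Complex.I))) := by
      rw [Complex.ofReal_neg]
    have hE1' : (1 + -Complex.exp (2 * Complex.I *
          (Rh M * (((-b + tt s M : ℝ) : ℂ) + η * Complex.I)))) =
        1 + -Complex.exp (2 * Complex.I * (Rh M * ((-b + η * Complex.I) + (tt s M : ℝ)))) := by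
      rw [← hψe]
    simp only [Pi.div_apply]
    rw [hE0', hE1', map_add, add_assoc, Complex.exp_add]
    have hn1 := Complex.exp_ne_zero (Complex.I * p * Rh M * (-b + η * Complex.I) ^ 2 / (8 * π) +
          Complex.I * (Rh M * (-b + η * Complex.I)))
    generalize Complex.exp (Complex.I * p * Rh M * (-b + η * Complex.I) ^ 2 / (8 * π) +
          Complex.I * (Rh M * (-b + η * Complex.I))) = X1 at *
    generalize 1 + -Complex.exp (2 * Complex.I * (Rh M * (-b + η * Complex.I))) = X2 at *
    generalize 1 + -Complex.exp (2 * Complex.I *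
      (Rh M * ((-b + η * Complex.I) + (tt s M : ℝ)))) = X3 at *
    generalize RH M (k M) ((-b + η * Complex.I) + π) = X4 at *
    generalize Complex.sin (((-b + η * Complex.I) + (tt s M : ℝ)) / 2) = X5 at *
    generalize Complex.cos (((-b + η * Complex.I) + (tt s M : ℝ) + π) / 2) = X6 at *
    generalize Complex.cos (((-b + η * Complex.I) + π) / 2) = X7 at *
    generalize Complex.sin ((-b + η * Complex.I) / 2) = X8 at *
    have hI := Complex.I_ne_zero
    field_simp

end Pool.Agent.H45.CYC
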